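import Mathlib

/-!
# First-order definable classes, isomorphism tests on multitape Turing machines, running times
-/

set_option autoImplicit false

namespace Pool.Agent.R546.IT

open FirstOrder

/-- A finite signature: the list of the arities of its relation symbols and the list of the arities
of its function symbols (a constant is a function symbol of arity `0`). -/
structure Sig : Type where
  /-- the arities of the relation symbols -/
  rel : List ℕ
  /-- the arities of the function symbols -/
  fn : List ℕ

/-- The first-order language with the symbols of `σ`. -/
def Sig.lang (σ : Sig) : Language where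
  Functions a := {i : Fin σ.fn.length // σ.fn.get i = a}
  Relations a := {i : Fin σ.rel.length // σ.rel.get i = a}

/-- A structure for the signature `σ` with universe `{0, ..., n - 1}`, given by the full tables of
all symbols. -/
structure Str (σ : Sig) (n : ℕ) : Type where
  /-- the tables of the relations -/
  rel : ∀ i : Fin σ.rel.length, (Fin (σ.rel.get i) → Fin n) → Bool
  /-- the tables of the functions -/
  fn : ∀ i : Fin σ.fn.length, (Fin (σ.fn.get i) → Fin n) → Fin n

/-- The structure as a structure of first-order logic. -/
@[reducible] def Str.toStructure {σ : Sig} {n : ℕ} (A : Str σ n) : σ.lang.Structure (Fin n) where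
  funMap {_} f x := A.fn f.1 (fun j => x (Fin.cast f.2 j))
  RelMap {_} r x := A.rel r.1 (fun j => x (Fin.cast r.2 j)) = true

/-- A first-order definable class of structures: a finite signature and a first-order sentence. -/
structure Cls : Type where
  /-- the signature -/
  σ : Sig
  /-- the sentence -/
  φ : σ.lang.Sentence

/-- The structure `A` belongs to the class `L`: it is a model of the sentence. -/
def Cls.Mem (L : Cls) {n : ℕ} (A : Str L.σ n) : Prop :=
  @Language.Sentence.Realize L.σ.lang (Fin n) A.toStructure L.φ

/-- Two structures are isomorphic: a permutation of the universe maps the tables of `A` to those of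
`B`. -/
def Iso {σ : Sig} {n : ℕ} (A B : Str σ n) : Prop :=
  ∃ e : Equiv.Perm (Fin n), (∀ i x, B.rel i (fun j => e (x j)) = A.rel i x) ∧
    ∀ i x, B.fn i (fun j => e (x j)) = e (A.fn i x)

/-- The number `f_L(n)` of isomorphism types of `n`-element members of `L`. -/
noncomputable def Cls.types (L : Cls) (n : ℕ) : ℕ :=
  {C : Set (Str L.σ n) | ∃ A, L.Mem A ∧ C = {B | Iso A B}}.ncard

/-! ### Input strings -/

/-- The input alphabet: two bits and a separator. -/
inductive Sym : Type
  | bit (b : Bool)
  | sep

/-- The binary code of a number, followed by a separator. -/
def encNat (n : ℕ) : List Sym := n.bits.map Sym.bit ++ [Sym.sep]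

/-- The code of a structure: the number of its elements in binary, then the full tables of all
relations (one bit for each tuple) and the full tables of all functions (a number in binary for
each tuple), the tuples being listed in the order given by Mathlib's bijection `finFunctionFinEquiv`
between tuples and numbers. -/
def encStr {σ : Sig} {n : ℕ} (A : Str σ n) : List Sym :=
  encNat n ++
  ((List.ofFn fun i : Fin σ.rel.length => List.ofFn fun t : Fin (n ^ σ.rel.get i) =>
    Sym.bit (A.rel i (finFunctionFinEquiv.symm t))).flatten ++
  (List.ofFn fun i : Fin σ.fn.length => (List.ofFn fun t : Fin (n ^ σ.fn.get i) =>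
    encNat (A.fn i (finFunctionFinEquiv.symm t))).flatten).flatten)

/-- The input for an isomorphism test: the codes of two structures. -/
def encPair {σ : Sig} {n : ℕ} (A B : Str σ n) : List Sym := encStr A ++ encStr B

/-! ### Multitape Turing machines -/

/-- The moves of a head. -/
inductive Move : Type
  | left
  | stay
  | right

/-- the displacement of a move -/
def Move.val : Move → ℤ
  | .left => -1
  | .stay => 0
  | .right => 1

/-- A deterministic Turing machine with `k + 1` tapes, infinite in both directions. Its tape alphabet
consists of the blank `none`, the input symbols `some (Sum.inl s)` and further symbols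
`some (Sum.inr g)`. The machine halts when the transition function has the value `none`; the state
then tells whether it accepts. -/
structure TM (k : ℕ) : Type 1 where
  /-- the states -/
  Q : Type
  /-- there are finitely many states -/
  finQ : Finite Q
  /-- the additional tape symbols -/
  Γ : Type
  /-- there are finitely many additional symbols -/
  finΓ : Finite Γ
  /-- the initial state -/
  start : Q
  /-- the transition function -/
  δ : Q → (Fin (k + 1) → Option (Sym ⊕ Γ)) →
    Option (Q × (Fin (k + 1) → Option (Sym ⊕ Γ)) × (Fin (k + 1) → Move))
  /-- the accepting states -/
  acc : Q → Prop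

/-- A configuration: the state, the contents of the tapes and the positions of the heads. -/
structure Cfg {k : ℕ} (M : TM k) : Type where
  /-- the state -/
  q : M.Q
  /-- the tapes -/
  tape : Fin (k + 1) → ℤ → Option (Sym ⊕ M.Γ)
  /-- the heads -/
  head : Fin (k + 1) → ℤ

/-- The initial configuration: the input is written on the first tape, starting at the position of
its head; everything else is blank. -/
def TM.init {k : ℕ} (M : TM k) (w : List Sym) : Cfg M where
  q := M.start
  tape i z := if i = 0 ∧ 0 ≤ z then (w[z.toNat]?).map Sum.inl else none
  head _ := 0

/-- One step; `none` if the machine has halted. -/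
noncomputable def TM.step {k : ℕ} (M : TM k) (c : Cfg M) : Option (Cfg M) :=
  (M.δ c.q (fun i => c.tape i (c.head i))).map fun r =>
    { q := r.1
      tape := fun i => Function.update (c.tape i) (c.head i) (r.2.1 i)
      head := fun i => c.head i + (r.2.2 i).val }

/-- `M` halts on the input `w` after exactly `t` steps, in the configuration `c`. -/
def TM.HaltsAt {k : ℕ} (M : TM k) (w : List Sym) (t : ℕ) (c : Cfg M) : Prop :=
  (fun o : Option (Cfg M) => o.bind M.step)^[t] (some (M.init w)) = some c ∧ M.step c = none

/-- `M` is an isomorphism testing algorithm for `L`: for any two members of `L` of the same size it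
halts, and it accepts if and only if they are isomorphic. -/
def TM.Tests {k : ℕ} (M : TM k) (L : Cls) : Prop :=
  ∀ (n : ℕ) (A B : Str L.σ n), L.Mem A → L.Mem B →
    ∃ t c, M.HaltsAt (encPair A B) t c ∧ (M.acc c.q ↔ Iso A B)

/-- The number `m_L(M, n)`: the largest number of steps of `M` on a pair of `n`-element members of
`L`. -/
noncomputable def TM.time {k : ℕ} (M : TM k) (L : Cls) (n : ℕ) : ℕ :=
  sSup {t | ∃ (A B : Str L.σ n) (c : Cfg M), L.Mem A ∧ L.Mem B ∧ M.HaltsAt (encPair A B) t c}

end Pool.Agent.R546.IT
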