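import Pool.Agent.R546.IT.Defs

/-!
# A reading lower bound
-/

set_option autoImplicit false

namespace Pool.Agent.R546.IT

open FirstOrder FirstOrder.Language

/-! ### Runs -/

section

variable {k : ℕ} {M : TM k}

theorem iter_none (t : ℕ) : (fun o : Option (Cfg M) => o.bind M.step)^[t] none = none := by
  induction t with
  | zero => rfl
  | succ t ih => rw [Function.iterate_succ_apply, Option.bind_none, ih]

theorem halts_unique {w : List Sym} {t t' : ℕ} {c c' : Cfg M} (h : M.HaltsAt w t c)
    (h' : M.HaltsAt w t' c') : t = t' := by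
  wlog hle : t ≤ t' generalizing t t' c c'
  · exact (this h' h (by omega)).symm
  by_contra hne
  obtain ⟨d, rfl⟩ : ∃ d, t' = d + 1 + t := ⟨t' - t - 1, by omega⟩
  have h1 := h'.1
  rw [Function.iterate_add_apply, h.1, Function.iterate_succ_apply, Option.bind_some, h.2,
    iter_none] at h1
  exact absurd h1 (by simp)

/-- the same part of the tapes -/
def Rel (T t : ℕ) (c c' : Cfg M) : Prop :=
  c.q = c'.q ∧ (∀ i, c.head i = c'.head i) ∧ (∀ i, c.head i ≤ t) ∧
    ∀ i (z : ℤ), z ≤ T → c.tape i z = c'.tape i z

theorem step_rel {T t : ℕ} (ht : t ≤ T) {c c' : Cfg M} (h : Rel T t c c') :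
    (M.step c = none ∧ M.step c' = none) ∨
      ∃ d d', M.step c = some d ∧ M.step c' = some d' ∧ Rel T (t + 1) d d' := by
  obtain ⟨h1, h2, h3, h4⟩ := h
  have h5 : (fun i => c.tape i (c.head i)) = fun i => c'.tape i (c'.head i) := by
    funext i
    rw [← h2 i]
    apply h4
    have := h3 i
    omega
  unfold TM.step
  rw [h5, h1]
  cases hδ : M.δ c'.q (fun i => c'.tape i (c'.head i)) with
  | none => exact Or.inl ⟨rfl, rfl⟩
  | some r =>
    right
    refine ⟨_, _, rfl, rfl, rfl, ?_, ?_, ?_⟩
    · intro i
      simp only [h2 i]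
    · intro i
      have := h3 i
      simp only
      have h6 : (r.2.2 i).val ≤ 1 := by
        cases r.2.2 i <;> simp [Move.val]
      push_cast
      omega
    · intro i z hz
      simp only
      rw [← h2 i]
      by_cases hzi : z = c.head i
      · subst hzi
        simp
      · rw [Function.update_of_ne hzi, Function.update_of_ne hzi]
        exact h4 i z hz

theorem iter_rel {T : ℕ} {w w' : List Sym} (hw : ∀ i : ℕ, i ≤ T → w[i]? = w'[i]?) (t : ℕ)
    (ht : t ≤ T) :
    ((fun o : Option (Cfg M) => o.bind M.step)^[t] (some (M.init w)) = none ∧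
      (fun o : Option (Cfg M) => o.bind M.step)^[t] (some (M.init w')) = none) ∨
    ∃ c c', (fun o : Option (Cfg M) => o.bind M.step)^[t] (some (M.init w)) = some c ∧
      (fun o : Option (Cfg M) => o.bind M.step)^[t] (some (M.init w')) = some c' ∧
      Rel T t c c' := by
  induction t with
  | zero =>
    right
    refine ⟨_, _, rfl, rfl, rfl, fun _ => rfl, fun _ => le_refl _, ?_⟩
    intro i z hz
    simp only [TM.init]
    by_cases h : i = 0 ∧ 0 ≤ z
    · rw [if_pos h, if_pos h, hw z.toNat (by omega)]
    · rw [if_neg h, if_neg h]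
  | succ t ih =>
    rw [Function.iterate_succ_apply', Function.iterate_succ_apply']
    rcases ih (by omega) with ⟨h1, h2⟩ | ⟨c, c', h1, h2, h3⟩
    · left
      rw [h1, h2]
      exact ⟨rfl, rfl⟩
    · rw [h1, h2]
      exact step_rel (by omega) h3

/-- a machine does not see what it has no time to read -/
theorem halts_congr {T : ℕ} {w w' : List Sym} (hw : ∀ i : ℕ, i ≤ T → w[i]? = w'[i]?) {t : ℕ}
    (ht : t ≤ T) {c : Cfg M} (h : M.HaltsAt w t c) : ∃ c', M.HaltsAt w' t c' ∧ c'.q = c.q := by
  obtain ⟨h1, h2⟩ := h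
  rcases iter_rel (M := M) hw t ht with ⟨h3, -⟩ | ⟨d, d', h3, h4, h5⟩
  · rw [h3] at h1
    exact absurd h1 (by simp)
  · rw [h3] at h1
    obtain rfl := Option.some.inj h1
    refine ⟨d', ⟨h4, ?_⟩, h5.1.symm⟩
    rcases step_rel ht h5 with ⟨_, h6⟩ | ⟨e, e', h6, _⟩
    · exact h6
    · rw [h2] at h6
      exact absurd h6 (by simp)

end

/-! ### Finiteness -/

instance finiteStr (σ : Sig) (n : ℕ) : Finite (Str σ n) := by
  refine Finite.of_injective (fun A : Str σ n => (A.rel, A.fn)) ?_
  rintro ⟨a, b⟩ ⟨c, d⟩ h
  simp only [Prod.mk.injEq] at h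
  rw [h.1, h.2]

theorem time_bdd {k : ℕ} (M : TM k) (L : Cls) (n : ℕ) :
    BddAbove {t | ∃ (A B : Str L.σ n) (c : Cfg M), L.Mem A ∧ L.Mem B ∧
      M.HaltsAt (encPair A B) t c} := by
  classical
  apply Set.Finite.bddAbove
  let f : Str L.σ n × Str L.σ n → ℕ := fun p =>
    if h : ∃ t c, M.HaltsAt (encPair p.1 p.2) t c then h.choose else 0
  refine (Set.finite_range f).subset ?_
  rintro t ⟨A, B, c, -, -, h⟩
  refine ⟨(A, B), ?_⟩
  have h1 : ∃ t c, M.HaltsAt (encPair A B) t c := ⟨t, c, h⟩
  simp only [f, dif_pos h1]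
  obtain ⟨c', h2⟩ := h1.choose_spec
  exact halts_unique h2 h

theorem le_time {k : ℕ} {M : TM k} {L : Cls} {n : ℕ} {A B : Str L.σ n} {t : ℕ} {c : Cfg M}
    (hA : L.Mem A) (hB : L.Mem B) (h : M.HaltsAt (encPair A B) t c) : t ≤ M.time L n :=
  le_csSup (time_bdd M L n) ⟨A, B, c, hA, hB, h⟩

/-! ### The classes -/

/-- one unary relation symbol -/
def sigJ : Sig := ⟨[1], []⟩

/-- the relation symbol -/
def symP : sigJ.lang.Relations 1 := ⟨(0 : Fin 1), rfl⟩

/-- there is at most one element -/
def phiJ : sigJ.lang.Sentence :=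
  ∀' ∀' ((symP.boundedFormula₁ (&0) ⊓ symP.boundedFormula₁ (&1)) ⟹ ((&0) =' (&1)))

/-- the class of the structures with a unary relation which holds for at most one element -/
def clsJ : Cls := ⟨sigJ, phiJ⟩

/-- no symbols -/
def sigK : Sig := ⟨[], []⟩

/-- the class of all sets without structure -/
def clsK : Cls := ⟨sigK, ⊤⟩

theorem realizeK {n : ℕ} (A : Str sigK n) :
    @Language.Sentence.Realize sigK.lang (Fin n) A.toStructure ⊤ := by
  let _ := A.toStructure
  exact BoundedFormula.realize_top.2 trivial

theorem memK {n : ℕ} (A : Str clsK.σ n) : clsK.Mem A := realizeK (n := n) A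

theorem realize_phiJ {n : ℕ} (A : Str sigJ n) :
    @Language.Sentence.Realize sigJ.lang (Fin n) A.toStructure phiJ ↔
    ∀ x y : Fin n, A.rel (0 : Fin 1) (fun _ => x) = true → A.rel (0 : Fin 1) (fun _ => y) = true →
      x = y := by
  let _ := A.toStructure
  have h : Language.Sentence.Realize (Fin n) phiJ ↔
      ∀ x y : Fin n, (Language.Structure.RelMap symP ![x] ∧ Language.Structure.RelMap symP ![y]) →
        x = y := by
    simp only [phiJ, Sentence.Realize, Formula.Realize, BoundedFormula.realize_all,
      BoundedFormula.realize_imp, BoundedFormula.realize_inf, BoundedFormula.realize_rel₁,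
      BoundedFormula.realize_bdEqual]
    rfl
  rw [h]
  have h2 : ∀ x : Fin n, Language.Structure.RelMap symP ![x] ↔
      A.rel (0 : Fin 1) (fun _ => x) = true := by
    intro x
    change A.rel (0 : Fin 1) (fun j => ![x] (Fin.cast rfl j)) = true ↔ _
    have : (fun j : Fin 1 => ![x] (Fin.cast rfl j)) = fun _ => x := by
      funext j
      fin_cases j
      rfl
    exact iff_of_eq (congrArg (fun f => A.rel (0 : Fin 1) f = true) this)
  simp only [h2]
  exact ⟨fun h x y hx hy => h x y ⟨hx, hy⟩, fun h x y hxy => h x y hxy.1 hxy.2⟩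

/-- the empty unary relation -/
def strA (n : ℕ) : Str sigJ n := ⟨fun _ _ => false, fun i => i.elim0⟩

/-- the unary relation which holds for the last element only -/
def strB (n : ℕ) : Str sigJ n :=
  ⟨fun i x => decide ((finFunctionFinEquiv x : ℕ) + 1 = n ^ sigJ.rel.get i), fun i => i.elim0⟩

theorem memA (n : ℕ) : clsJ.Mem (n := n) (strA n) :=
  (realize_phiJ (strA n)).2 fun x y hx _ => by simp [strA] at hx

theorem memB (n : ℕ) : clsJ.Mem (n := n) (strB n) :=
  (realize_phiJ (strB n)).2 fun x y hx hy => by
    simp only [strB, decide_eq_true_eq] at hx hy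
    have h1 : finFunctionFinEquiv (fun _ : Fin 1 => x) = finFunctionFinEquiv (fun _ : Fin 1 => y) := by
      apply Fin.ext
      change (finFunctionFinEquiv (fun _ : Fin 1 => x) : ℕ) + 1 = _ at hx
      change (finFunctionFinEquiv (fun _ : Fin 1 => y) : ℕ) + 1 = _ at hy
      omega
    have h2 := finFunctionFinEquiv.injective h1
    exact congrFun h2 0

theorem not_iso {n : ℕ} (hn : 1 ≤ n) : ¬ Iso (strB n) (strA n) := by
  rintro ⟨e, h, -⟩
  have h1 : 0 < n ^ 1 := by rw [pow_one]; exact hn
  have h2 := h (0 : Fin 1) (finFunctionFinEquiv.symm (⟨n ^ 1 - 1, by omega⟩ : Fin (n ^ 1)))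
  have h3 : (strB n).rel (0 : Fin 1)
      (finFunctionFinEquiv.symm (⟨n ^ 1 - 1, by omega⟩ : Fin (n ^ 1))) = true := by
    change decide ((finFunctionFinEquiv (finFunctionFinEquiv.symm
      (⟨n ^ 1 - 1, by omega⟩ : Fin (n ^ 1))) : ℕ) + 1 = n ^ 1) = true
    rw [Equiv.apply_symm_apply, decide_eq_true_eq]
    simp only
    omega
  rw [h3] at h2
  simp [strA] at h2

theorem iso_refl {σ : Sig} {n : ℕ} (A : Str σ n) : Iso A A :=
  ⟨Equiv.refl _, fun _ _ => rfl, fun _ _ => rfl⟩

theorem encA (n : ℕ) : encStr (strA n) =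
    encNat n ++ List.ofFn (fun _ : Fin (n ^ 1) => Sym.bit false) := by
  have h : encStr (strA n) = encNat n ++
    ([List.ofFn (fun _ : Fin (n ^ 1) => Sym.bit false)].flatten ++ [].flatten) := rfl
  rw [h]
  simp

theorem encB (n : ℕ) : encStr (strB n) =
    encNat n ++ List.ofFn (fun t : Fin (n ^ 1) => Sym.bit (decide ((t : ℕ) + 1 = n ^ 1))) := by
  have h : encStr (strB n) = encNat n ++
    ([List.ofFn (fun t : Fin (n ^ 1) => Sym.bit (decide
      ((finFunctionFinEquiv (finFunctionFinEquiv.symm t) : ℕ) + 1 = n ^ 1)))].flatten ++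
        [].flatten) := rfl
  rw [h]
  simp

theorem encNat_length (n : ℕ) : (encNat n).length = n.size + 1 := by
  simp [encNat, Nat.size_eq_bits_len]

theorem enc_agree {n : ℕ} (i : ℕ) (hi : i + 1 ≤ n) :
    (encPair (strA n) (strA n))[i]? = (encPair (strB n) (strA n))[i]? := by
  unfold encPair
  have hl := encNat_length n
  rw [encA, encB]
  by_cases h : i < (encNat n).length
  · rw [List.append_assoc, List.append_assoc, List.getElem?_append_left h,
      List.getElem?_append_left h]
  · have h1 : i - (encNat n).length < n ^ 1 := by rw [pow_one]; omega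
    have e : ∀ L R : List Sym, L.length = n ^ 1 →
        (encNat n ++ (L ++ R))[i]? = L[i - (encNat n).length]? := by
      intro L R hL
      rw [List.getElem?_append_right (by omega), List.getElem?_append_left (by rw [hL]; exact h1)]
    rw [List.append_assoc, List.append_assoc, e _ _ (by rw [List.length_ofFn]),
      e _ _ (by rw [List.length_ofFn]), List.getElem?_ofFn, List.getElem?_ofFn]
    simp only [h1, dite_true]
    rw [decide_eq_false]
    rw [pow_one]
    omega

/-- the lower bound -/
theorem lower {k : ℕ} (β : TM k) (hβ : β.Tests clsJ) {n : ℕ} (hn : 1 ≤ n) :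
    n ≤ β.time clsJ n := by
  obtain ⟨t, c, h1, h2⟩ := hβ n (strA n) (strA n) (memA n) (memA n)
  obtain ⟨t', c', h3, h4⟩ := hβ n (strB n) (strA n) (memB n) (memA n)
  refine le_trans ?_ (le_time (memA n) (memA n) h1)
  by_contra hcon
  have h5 : ∀ i : ℕ, i ≤ n - 1 →
      (encPair (strA n) (strA n))[i]? = (encPair (strB n) (strA n))[i]? :=
    fun i hi => enc_agree i (by omega)
  obtain ⟨d, h6, h7⟩ := halts_congr h5 (show t ≤ n - 1 by omega) h1
  have h8 := halts_unique h6 h3
  subst h8
  have h9 : d = c' := Option.some.inj (h6.1.symm.trans h3.1)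
  subst h9
  rw [h7] at h4
  exact not_iso hn (h4.1 (h2.2 (iso_refl _)))

/-- the set without structure -/
def strK (n : ℕ) : Str sigK n := ⟨fun i => i.elim0, fun i => i.elim0⟩

theorem strK_unique {n : ℕ} (A : Str sigK n) : A = strK n := by
  cases A with
  | mk a b =>
    have h1 : a = fun i => i.elim0 := funext fun i => i.elim0
    have h2 : b = fun i => i.elim0 := funext fun i => i.elim0
    subst h1 h2
    rfl

theorem typesK (n : ℕ) : 1 ≤ clsK.types n := by
  unfold Cls.types
  rw [Nat.one_le_iff_ne_zero]
  have h : ({C : Set (Str clsK.σ n) | ∃ A, clsK.Mem A ∧ C = {B | Iso A B}}).Nonempty :=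
    ⟨_, strK n, memK (strK n), rfl⟩
  exact ((Set.ncard_pos (Set.toFinite _)).2 h).ne'

theorem iso_symm {σ : Sig} {n : ℕ} {A B : Str σ n} (h : Iso A B) : Iso B A := by
  obtain ⟨e, h1, h2⟩ := h
  refine ⟨e.symm, fun i x => ?_, fun i x => ?_⟩
  · rw [← h1]
    simp
  · rw [Equiv.eq_symm_apply, ← h2]
    simp

theorem iso_trans {σ : Sig} {n : ℕ} {A B C : Str σ n} (h : Iso A B) (h' : Iso B C) : Iso A C := by
  obtain ⟨e, h1, h2⟩ := h
  obtain ⟨f, h3, h4⟩ := h'
  refine ⟨e.trans f, fun i x => ?_, fun i x => ?_⟩
  · rw [← h1, ← h3]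
    rfl
  · simp only [Equiv.trans_apply]
    rw [← h2, ← h4]

theorem ncard_two {X : Type} (a b : X) : ({a, b} : Set X).ncard ≤ 2 :=
  (Set.ncard_insert_le _ _).trans (by rw [Set.ncard_singleton])

theorem typesJ (n : ℕ) : clsJ.types n ≤ 2 := by
  classical
  unfold Cls.types
  have hsub : {C : Set (Str clsJ.σ n) | ∃ A, clsJ.Mem A ∧ C = {B | Iso A B}} ⊆
      ({{B | Iso (strA n) B}, {B | Iso (strB n) B}} : Set (Set (Str clsJ.σ n))) := by
    rintro C ⟨A, hA, rfl⟩
    have hA' := (realize_phiJ A).1 hA
    have key : Iso A (strA n) ∨ Iso A (strB n) := by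
      by_cases h : ∃ x : Fin n, A.rel (0 : Fin 1) (fun _ => x) = true
      · right
        obtain ⟨x, hx⟩ := h
        have hn : 0 < n ^ 1 := by
          rw [pow_one]
          exact lt_of_le_of_lt (Nat.zero_le _) x.2
        set y : Fin n := (finFunctionFinEquiv.symm (⟨n ^ 1 - 1, by omega⟩ : Fin (n ^ 1))) (0 : Fin 1)
          with hy
        have hy2 : finFunctionFinEquiv (fun _ : Fin 1 => y) =
            (⟨n ^ 1 - 1, by omega⟩ : Fin (n ^ 1)) := by
          rw [← Equiv.eq_symm_apply]
          funext j
          have hj : j = (0 : Fin 1) := Subsingleton.elim (α := Fin 1) _ _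
          subst hj
          rfl
        refine ⟨Equiv.swap x y, ?_, fun i => i.elim0⟩
        intro i
        have hi : i = (0 : Fin 1) := Subsingleton.elim (α := Fin 1) _ _
        subst hi
        intro z
        change decide ((finFunctionFinEquiv (fun j : Fin 1 => Equiv.swap x y (z j)) : ℕ) + 1 =
          n ^ 1) = _
        have hz : z = fun _ => z (0 : Fin 1) := by
          funext j
          congr 1
          exact Subsingleton.elim (α := Fin 1) _ _
        by_cases hzx : z (0 : Fin 1) = x
        · have e1 : (fun j : Fin 1 => Equiv.swap x y (z j)) = fun _ => y := by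
            funext j
            have : z j = x := by
              rw [← hzx]; congr 1; exact Subsingleton.elim (α := Fin 1) _ _
            rw [this, Equiv.swap_apply_left]
          rw [e1, hy2, hz, hzx, hx, decide_eq_true_eq]
          simp only
          omega
        · have e2 : A.rel (0 : Fin 1) z = false := by
            rw [Bool.eq_false_iff]
            intro h
            rw [hz] at h
            exact hzx (hA' _ _ h hx)
          rw [e2, decide_eq_false_iff_not]
          intro h
          have e3 : finFunctionFinEquiv (fun j : Fin 1 => Equiv.swap x y (z j)) =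
              finFunctionFinEquiv (fun _ : Fin 1 => y) := by
            rw [hy2]
            apply Fin.ext
            simp only
            omega
          have e4 : Equiv.swap x y (z (0 : Fin 1)) = y :=
            congrFun (finFunctionFinEquiv.injective e3) 0
          apply hzx
          have e5 := congrArg (Equiv.swap x y) e4
          rw [Equiv.swap_apply_self, Equiv.swap_apply_right] at e5
          exact e5
      · left
        refine ⟨Equiv.refl _, ?_, fun i => i.elim0⟩
        intro i
        have hi : i = (0 : Fin 1) := Subsingleton.elim (α := Fin 1) _ _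
        subst hi
        intro z
        have hz : z = fun _ => z (0 : Fin 1) := by
          funext j
          congr 1
          exact Subsingleton.elim (α := Fin 1) _ _
        symm
        change _ = false
        rw [Bool.eq_false_iff]
        intro h'
        rw [hz] at h'
        exact h ⟨_, h'⟩
    rcases key with h | h
    · left
      ext B
      exact ⟨fun h' => iso_trans (iso_symm h) h', fun h' => iso_trans h h'⟩
    · right
      ext B
      exact ⟨fun h' => iso_trans (iso_symm h) h', fun h' => iso_trans h h'⟩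
  exact le_trans (Set.ncard_le_ncard hsub (Set.toFinite _)) (ncard_two _ _)

/-! ### The upper bound -/

/-- its transition function -/
def alphaδ (_ : Unit) (s : Fin (0 + 1) → Option (Sym ⊕ Empty)) :
    Option (Unit × (Fin (0 + 1) → Option (Sym ⊕ Empty)) × (Fin (0 + 1) → Move)) :=
  match s 0 with
  | none => none
  | some a => some ((), fun _ => some a, fun _ => Move.right)

/-- the machine which reads its input and accepts -/
@[reducible] def alpha : TM 0 where
  Q := Unit
  finQ := inferInstance
  Γ := Empty
  finΓ := inferInstance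
  start := ()
  δ := alphaδ
  acc _ := True

theorem alphaδ_none {s : Fin (0 + 1) → Option (Sym ⊕ Empty)} (h : s 0 = none) :
    alphaδ () s = none := by
  unfold alphaδ
  rw [h]

theorem alphaδ_some {s : Fin (0 + 1) → Option (Sym ⊕ Empty)} {a : Sym ⊕ Empty}
    (h : s 0 = some a) : alphaδ () s = some ((), fun _ => some a, fun _ => Move.right) := by
  unfold alphaδ
  rw [h]

theorem step_none {k : ℕ} {M : TM k} {c : Cfg M}
    (h : M.δ c.q (fun i => c.tape i (c.head i)) = none) : M.step c = none := by
  unfold TM.step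
  rw [h]
  rfl

theorem step_some {k : ℕ} {M : TM k} {c : Cfg M} {r}
    (h : M.δ c.q (fun i => c.tape i (c.head i)) = some r) : M.step c = some
      { q := r.1
        tape := fun i => Function.update (c.tape i) (c.head i) (r.2.1 i)
        head := fun i => c.head i + (r.2.2 i).val } := by
  unfold TM.step
  rw [h]
  rfl

/-- the configuration after `t` steps -/
def alphaCfg (w : List Sym) (t : ℕ) : Cfg alpha := ⟨(), (alpha.init w).tape, fun _ => (t : ℤ)⟩

theorem alpha_step (w : List Sym) (t : ℕ) (ht : t < w.length) :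
    alpha.step (alphaCfg w t) = some (alphaCfg w (t + 1)) := by
  have h1 : ∀ i, (alphaCfg w t).tape i ((alphaCfg w t).head i) = some (Sum.inl (w[t]'ht)) := by
    intro i
    have hi : i = 0 := Subsingleton.elim (α := Fin 1) _ _
    subst hi
    change (if (0 : Fin (0 + 1)) = 0 ∧ 0 ≤ (t : ℤ) then (w[(t : ℤ).toNat]?).map Sum.inl else none) =
      _
    rw [if_pos ⟨rfl, by omega⟩, Int.toNat_natCast, List.getElem?_eq_getElem ht]
    rfl
  have h4 : alpha.δ (alphaCfg w t).q (fun i => (alphaCfg w t).tape i ((alphaCfg w t).head i)) =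
      some ((), fun _ => some (Sum.inl (w[t]'ht)), fun _ => Move.right) :=
    alphaδ_some (s := fun i => (alphaCfg w t).tape i ((alphaCfg w t).head i)) (h1 0)
  rw [step_some (r := ((), fun _ => some (Sum.inl (w[t]'ht)), fun _ => Move.right)) h4]
  apply congrArg some
  have h2 : (fun i => Function.update ((alphaCfg w t).tape i) ((alphaCfg w t).head i)
      (some (Sum.inl (w[t]'ht)))) = (alphaCfg w t).tape := by
    funext i
    rw [← h1 i, Function.update_eq_self]
  have h3 : (fun _ : Fin (0 + 1) => (t : ℤ) + Move.right.val) =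
      fun _ => (((t + 1 : ℕ) : ℤ)) := by
    funext _
    simp [Move.val]
  change (⟨(), fun i => Function.update ((alphaCfg w t).tape i) ((alphaCfg w t).head i)
      (some (Sum.inl (w[t]'ht))), fun _ => (t : ℤ) + Move.right.val⟩ : Cfg alpha) = _
  rw [h2, h3]
  rfl

theorem alpha_iter (w : List Sym) (t : ℕ) (ht : t ≤ w.length) :
    (fun o : Option (Cfg alpha) => o.bind alpha.step)^[t] (some (alpha.init w)) =
      some (alphaCfg w t) := by
  induction t with
  | zero => rfl
  | succ t ih =>
    rw [Function.iterate_succ_apply', ih (by omega), Option.bind_some]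
    exact alpha_step w t (by omega)

theorem alpha_halts (w : List Sym) : alpha.HaltsAt w w.length (alphaCfg w w.length) := by
  refine ⟨alpha_iter w _ le_rfl, step_none (?_ : alphaδ () (fun i => (alphaCfg w w.length).tape i
    ((alphaCfg w w.length).head i)) = none)⟩
  refine alphaδ_none ?_
  change (if (0 : Fin (0 + 1)) = 0 ∧ 0 ≤ (w.length : ℤ) then
    (w[(w.length : ℤ).toNat]?).map Sum.inl else none) = _
  rw [if_pos ⟨rfl, by omega⟩, Int.toNat_natCast, List.getElem?_eq_none le_rfl]
  rfl

theorem alpha_tests : alpha.Tests clsK := by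
  intro n A B _ _
  refine ⟨_, _, alpha_halts _, ?_⟩
  have hAB : A = B := (strK_unique A).trans (strK_unique B).symm
  subst hAB
  exact iff_of_true trivial (iso_refl _)

theorem encK {n : ℕ} (A B : Str clsK.σ n) : (encPair A B).length = 2 * (n.size + 1) := by
  have h : ∀ A : Str sigK n, encStr A = encNat n := by
    intro A
    have h : encStr A = encNat n ++ ([].flatten ++ [].flatten) := rfl
    rw [h]
    simp
  unfold encPair
  rw [List.length_append]
  change (encStr (σ := sigK) A).length + (encStr (σ := sigK) B).length = _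
  rw [h A, h B, encNat_length]
  ring

theorem time_alpha (n : ℕ) : alpha.time clsK n = 2 * (n.size + 1) := by
  apply le_antisymm
  · apply csSup_le'
    rintro t ⟨A, B, c, -, -, h⟩
    have := halts_unique h (alpha_halts _)
    rw [this, encK]
  · have h := le_time (memK (strK n)) (memK (strK n)) (alpha_halts _)
    exact le_of_eq_of_le (encK (strK n) (strK n)).symm h

/-! ### Growth -/

theorem poly_small (p : Polynomial ℝ) :
    Filter.Tendsto (fun s : ℕ => p.eval (s : ℝ) / 2 ^ s) Filter.atTop (nhds 0) := by
  induction p using Polynomial.induction_on' with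
  | add p q hp hq =>
    have := hp.add hq
    simp only [add_zero] at this
    refine this.congr fun s => ?_
    rw [Polynomial.eval_add, add_div]
  | monomial k a =>
    have := (tendsto_pow_const_div_const_pow_of_one_lt k (r := 2) (by norm_num)).const_mul a
    rw [mul_zero] at this
    refine this.congr fun s => ?_
    rw [Polynomial.eval_monomial, mul_div_assoc]

theorem growth (p : Polynomial ℝ) : ∀ᶠ n : ℕ in Filter.atTop,
    p.eval ((2 * (n.size + 1) : ℕ) : ℝ) < n := by
  have h1 := poly_small (p.comp (Polynomial.C 2 * (Polynomial.X + 1)))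
  have h2 := h1.eventually (gt_mem_nhds (show (0 : ℝ) < 1 / 2 by norm_num))
  obtain ⟨s0, hs0⟩ := Filter.eventually_atTop.1 h2
  refine Filter.eventually_atTop.2 ⟨2 ^ s0, fun n hn => ?_⟩
  have hn0 : n ≠ 0 := by
    have : 0 < 2 ^ s0 := by positivity
    omega
  have hpos : 0 < n.size := Nat.pos_of_ne_zero fun h => hn0 (Nat.size_eq_zero.1 h)
  have h3 : s0 ≤ n.size := by
    by_contra hcon
    push Not at hcon
    have := Nat.size_le.1 hcon.le
    omega
  have h4 := hs0 _ h3
  rw [div_lt_iff₀ (by positivity)] at h4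
  simp only [Polynomial.eval_comp, Polynomial.eval_mul, Polynomial.eval_C, Polynomial.eval_add,
    Polynomial.eval_X, Polynomial.eval_one] at h4
  have h5 : 2 ^ (n.size - 1) ≤ n := by
    by_contra hcon
    push Not at hcon
    have := Nat.size_le.2 hcon
    omega
  have h7 : 2 ^ n.size ≤ 2 * n := by
    obtain ⟨m, hm⟩ : ∃ m, n.size = m + 1 := ⟨n.size - 1, by omega⟩
    rw [hm] at h5 ⊢
    rw [pow_succ]
    simp only [Nat.add_sub_cancel] at h5
    omega
  have h6 : (2 : ℝ) ^ n.size ≤ 2 * n := by exact_mod_cast h7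
  push_cast
  linarith

/-- the lower and the upper bound -/
theorem gap {l : ℕ} (β : TM l) (hβ : β.Tests clsJ) (p : Polynomial ℝ) :
    ∀ᶠ n : ℕ in Filter.atTop, p.eval (alpha.time clsK n : ℝ) < β.time clsJ n := by
  filter_upwards [growth p, Filter.eventually_ge_atTop 1] with n h1 h2
  rw [time_alpha]
  exact lt_of_lt_of_le h1 (by exact_mod_cast lower β hβ h2)

end Pool.Agent.R546.IT
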